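import Pool.Agent.V5helper81.ZN.Defn
import Pool.Agent.V5helper81.ZN.PD
import Pool.Agent.TH38.ZT.Trace

/-!
Zero in the spectrum for closed aspherical manifolds whose fundamental group has an amenable normal
subgroup with finite dimensional rational homology in small degrees.

A closed aspherical manifold `M` with fundamental group `G` is homotopy equivalent to a finite CW
complex, and the cellular chain complex of the universal cover of that complex is a finite free
resolution `X` of the trivial `ℤ[G]`-module `ℤ` (`Pool.Agent.H919R4.ZS.FinRes`).  Its homology with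
coefficients in `C*_r(G)` is the homology of `M` with these coefficients.

Let `F → M → E` be a fibre bundle of closed aspherical manifolds.  Then `G = π_1(M)` has the normal
subgroup `N = π_1(F)` with `G/N = π_1(E)`, the homology `H_q(N; ℚ) = H_q(F; ℚ)` is finite dimensional,
and the action of `G/N` on it is the monodromy.  `toRat N : ℤ[G] → ℚ[G/N]` is the canonical
homomorphism, so `HN N X q = X.homology (toRat N) q`, the homology of `ℚ[G/N] ⊗_{ℤ[G]} X`, is
`H_q(N; ℚ)` with the action of `G/N`; `FiniteHomology N X q` says that it is finite dimensional.  `Tower (G/N) B` (`Pool.Agent.TH38.ZT.Tower`): `B` arises from `G/N` by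
successively dividing out infinite cyclic normal subgroups (for instance `B = G/N`).  Amenability is
the Foelner condition (`Pool.Agent.H496R3.ZS.IsAmenable`), `euler Y` (`Pool.Agent.TH38.ZT.euler`) is
the Euler characteristic.

`BoundedAction N X q`: with respect to a suitable basis of the rational vector space `H_q(N; ℚ)`, the
elements of `G/N` act by block triangular matrices, and the entries in the diagonal blocks are
bounded.  This is true if `G/N` acts through a finite group, or unipotently, or if a subgroup of
finite index acts unipotently.

The proof. Let `Q = G/N` and `A = C*_r(Q)`. As `N` is amenable, the vanishing of `H_j(G; C*_r(G))` for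
`j ≤ i` implies the one of `H_j(G; A)`. The modules `H_q(N; ℚ)` are removed from the complex
`ℚ[Q] ⊗ X` by attaching their free resolutions (the resolution of `ℤ` twisted by a representation). So
one needs that the torsion products `Tor_k(A, H_q(N; ℚ))` vanish for `k + q < i`. For representations
with bounded factors this is Fell's absorption principle. For `k = 0` and an arbitrary finite
dimensional representation: otherwise the closure of the submodule of the relations in a free
`A`-module has finite codimension and is proper, so `A` has a finite dimensional representation, and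
then `H_0(Q; A) ≠ 0`.
-/

set_option autoImplicit false

namespace Pool.Agent.Results.MP_48737f_gt.AmenableNormalSubgroups

open Pool.Agent.H919R4.ZS (FinRes RedC toRed)
open Pool.Agent.H496R3.ZS (IsAmenable)
open Pool.Agent.TH38.ZT (Tower euler ExAt exAt_iff)
open Pool.Agent.V5helper81.ZN (FiniteHomology BoundedAction)

variable {G : Type} [Group G]

/-- The resolution `Y` satisfies Poincaré duality: `H^k(B; ℤ[B]) = 0` for all `k` below the length `n`
of `Y`, and `H^n(B; ℤ[B]) ≅ ℤ`. This is true for a closed aspherical manifold with fundamental group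
`B` and dimension `n`, whether or not it is orientable. -/
def IsPoincare {B : Type} [Group B] (Y : FinRes B) : Prop :=
  (∀ k < Y.len, Subsingleton (Y.cohomology k)) ∧ Nonempty (Y.cohomology Y.len ≃+ ℤ)

/-- The condition on `Y` and `i`:
* `H_i(B; C*_r(B)) ≠ 0`, or
* `i = 2`, and the length of `Y` is at most two or `H^k(B; ℤ[B]) ≠ 0` for some `k ≤ 2`, or
* `H_k(B; C*_r(B)) ≠ 0` for some `k`, or the Euler characteristic of `Y` is not zero; and `i` is the
  length of `Y`, or `Y` satisfies Poincaré duality (for instance, it comes from a closed aspherical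
  manifold `E` of dimension `n` with fundamental group `B`) and `i = ⌊n/2⌋`, `n` being the length. -/
def HasZero {B : Type} [Group B] (Y : FinRes B) (i : ℕ) : Prop :=
  Nontrivial (Y.homology (toRed B) i) ∨
    (i = 2 ∧ (Y.len ≤ 2 ∨ ∃ k ≤ 2, Nontrivial (Y.cohomology k))) ∨
    ((i = Y.len ∨ (IsPoincare Y ∧ i = Y.len / 2)) ∧
      ((∃ k, Nontrivial (Y.homology (toRed B) k)) ∨ euler Y ≠ 0))

/-- Let `N` be an amenable normal subgroup of `G`, let `B` arise from `G/N` by successively dividing
out infinite cyclic normal subgroups (for instance `B = G/N`), let `Y` be a finite free resolution of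
`ℤ` over `ℤ[B]`, and let `i` be a number such that
* `H_i(B; C*_r(B)) ≠ 0`, or
* `i = 2`, and the length of `Y` is at most two or `H^k(B; ℤ[B]) ≠ 0` for some `k ≤ 2`, or
* `H_k(B; C*_r(B)) ≠ 0` for some `k`, or the Euler characteristic of `Y` is not zero; and `i` is the
  length of `Y`, or `Y` satisfies Poincaré duality (for instance, it comes from a closed aspherical
  manifold `E` of dimension `n` with fundamental group `B`) and `i = ⌊n/2⌋`, `n` being the length.
Let `X` be a finite free resolution of `ℤ` over `ℤ[G]` (for a closed aspherical manifold `M` with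
fundamental group `G`, its homology with coefficients in `C*_r(G)` is that of `M`). If `H_q(N; ℚ)` is
finite dimensional for `1 ≤ q < i`, and the action of `G/N` on `H_q(N; ℚ)` has bounded factors for
`1 ≤ q < i - 1`, then there is `j ≤ i` with `H_j(M; C*_r(G)) ≠ 0`.

For `i ≤ 2` there is no condition on the action; so, if `B = π_1(E)` for a closed aspherical manifold
`E` of dimension at most `5`, then the conjecture for `E` implies the one for `M`, as soon as
`H_1(N; ℚ)` is finite dimensional. -/
theorem result (N : Subgroup G) [N.Normal] (hN : IsAmenable N) (B : Type) [Group B]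
    (hB : Tower (G ⧸ N) B) (Y : FinRes B) (i : ℕ) (hY : HasZero Y i) (X : FinRes G)
    (hF : ∀ q, 1 ≤ q → q < i → FiniteHomology N X q)
    (hD : ∀ q, 1 ≤ q → q < i - 1 → BoundedAction N X q) :
    ∃ j ≤ i, Nontrivial (X.homology (toRed G) j) := by
  obtain ⟨k, hk, hk'⟩ : ∃ k ≤ i, Nontrivial (Y.homology (toRed B) k) := by
    rcases hY with h | ⟨rfl, h⟩ | ⟨h, h'⟩
    · exact ⟨i, le_rfl, h⟩
    · exact Pool.Agent.H919R4.ZS.main Y h
    · obtain ⟨k, hk⟩ : ∃ k, Nontrivial (Y.homology (toRed B) k) := by
        rcases h' with h' | h'
        · exact h'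
        · obtain ⟨k, -, hk⟩ := Pool.Agent.TH38.ZT.exists_of_euler Y h'
          exact ⟨k, hk⟩
      rcases h with rfl | ⟨⟨h0, h1⟩, rfl⟩
      · refine ⟨k, ?_, hk⟩
        by_contra hlt
        haveI : IsEmpty (Fin (Y.n k)) := by
          rw [Y.n_eq_zero k (by omega)]
          infer_instance
        refine not_nontrivial_iff_subsingleton.2 ((exAt_iff Y (toRed B) k).1 ?_) hk
        cases k with
        | zero => exact fun x => ⟨0, funext fun j => isEmptyElim j⟩
        | succ k => exact fun x _ => ⟨0, funext fun j => isEmptyElim j⟩
      · by_contra hcon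
        push Not at hcon
        refine not_nontrivial_iff_subsingleton.2 ((exAt_iff Y (toRed B) k).1 ?_) hk
        exact Pool.Agent.V5helper81.ZN.half Y Y.len rfl h0 h1
          (fun j hj => (exAt_iff Y (toRed B) j).2 (hcon j (by omega))) k
  obtain ⟨⟨W⟩, h2⟩ := Pool.Agent.TH38.ZT.tower hB Y
  obtain ⟨l, hl, hl'⟩ : ∃ l ≤ k, Nontrivial (W.homology (toRed (G ⧸ N)) l) := by
    by_contra hcon
    push Not at hcon
    exact not_nontrivial_iff_subsingleton.2 (h2 W k hcon k le_rfl) hk'
  obtain ⟨j, hj, hj'⟩ := Pool.Agent.V5helper81.ZN.transfer N hN X W l hl'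
    (fun q h3 h4 => Pool.Agent.V5helper81.ZN.finite_of (hF q h3 (by omega)))
    (fun q h3 h4 => Pool.Agent.V5helper81.ZN.bounded_of (hD q h3 (by omega)))
  exact ⟨j, by omega, hj'⟩

end Pool.Agent.Results.MP_48737f_gt.AmenableNormalSubgroups
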