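import Pool.Agent.V5helper82.FT.HcK

/-!
Zero in the spectrum passes from fixed sets and faces of finite reflection groups acting on the
universal cover of `M`, and from groups acting on these sets, to `M`.

`U : AcyclicGComplex N` (`Pool.Agent.TH38.CX.Defs`) is the cellular chain complex of the universal
cover of a finite aspherical complex (or closed aspherical manifold) `M` with fundamental group `N`:
`U.E i` is the set of its `i`-cells, `bdU U` are the boundaries of the cells, `N` acts freely with
finitely many orbits of cells. `X : FinRes N` is any finite free resolution, `X.homology (toRed N) i`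
is `H_i(M; C*_r(N))` (`Pool.Agent.H919R4.ZS.Defs`).

A subcomplex is *inherited* (`Inh`, `Pool.Agent.Q169.FT.Stm`) if it is obtained from the whole
universal cover by the following operations: pass from `B` to a face of the fundamental chamber `C`
of a finite reflection group `K` acting on `B` (`Refl`), for instance to the chamber or to the fixed
set of `K`; pass to a bounded chain retract; pass from `A₁`, `A₂` to `A₁ ∩ A₂` if `A₁`, `A₂` and
`A₁ ∪ A₂` are inherited. The groups `K` need neither commute with nor normalise the group `N` of
deck transformations, and an inherited subcomplex need not be invariant under any infinite group.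
`ZeroInSpec`, `HasFolnerSets`, `HcNonzero`, `HcInfiniteCyclic`, `HcOnly`, `FreeAction` are defined in
`Pool.Agent.V5helper82.FT.Defs`.

Examples (not formalised). Let `M` be a closed aspherical `n`-manifold with a (triangulated) finite
reflection group `K` of rank `r` acting on the universal cover, such that a group `L` acts freely
and cocompactly on the fixed set `F` of `K`: zero is in the spectrum for `M` if it is for `L`, and
always if `n ≤ r + 3`. For instance this proves it for all closed aspherical `4`-manifolds with a
reflection, so for the double of a compact aspherical `4`-manifold along a `π₁`-injective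
aspherical boundary; and for the double of an `n`-manifold if it holds for the boundary. (For the
barycentric subdivision of a complex all cellular automorphisms preserve the incidence numbers.)
-/

set_option autoImplicit false

namespace Pool.Agent.Results.MP_48737f_gt.FixedSetsOfReflectionGroups

open Pool.Agent.H919R4.ZS (FinRes toRed)
open Pool.Agent.TH38.CX (AcyclicGComplex)
open Pool.Agent.Q169.FT (Inh Refl fc)
open Pool.Agent.V5helper82.FT

/-- Let `M` be a finite aspherical complex with fundamental group `N` and universal cover `U`.

Let `A` be an inherited subcomplex of `U`. (1) If `0` is in the spectrum of the combinatorial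
Laplacian of `A` in some degree, or (2) `A` has Foelner sets, then `H_i(M; C*_r(N)) ≠ 0` for some
`i`. (3) Let `A` be nonempty and let the group `L` act freely on `A` with finitely many orbits of
cells. Then `L` has a finite free resolution `Y`, and if `H_i(L; C*_r(L)) ≠ 0` for some `i`, or
`H_c^k(A; ℤ) ≠ 0` for some `k ≤ 2`, or `H_c^3(A; ℤ)` is infinite cyclic, or `χ(A / L) ≠ 0`, then
`H_i(M; C*_r(N)) ≠ 0` for some `i`.

(4) Let the finite reflection group `K` of rank `|T| > 0` act on the inherited subcomplex `B` (for
instance `B = U` and `M` a closed aspherical `n`-manifold), such that `H_c^*(B; ℤ)` is infinite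
cyclic in degree `n` and zero in the other degrees, and such that no `n`-cell lies in a wall. Then
`n = m + |T|`, and the fixed set `F` of `K` has the same property in degree `m`. If `m ≤ 3`, `F` is
nonempty and some group acts freely on `F` with finitely many orbits of cells, then
`H_i(M; C*_r(N)) ≠ 0` for some `i`. -/
theorem result {N : Type} [Group N] (U : AcyclicGComplex N)
    (hU : ∀ i (n : N) (e : U.E i), n • e = e → n = 1)
    (hfin : ∀ i, Finite (MulAction.orbitRel.Quotient N (U.E i))) (X : FinRes N) :
    (∀ A : ∀ i, Set (U.E i), Inh (bdU U) A →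
      ((∃ i, ZeroInSpec (bdU U) A i) → ∃ i, Nontrivial (X.homology (toRed N) i)) ∧
      (HasFolnerSets (bdU U) A → ∃ i, Nontrivial (X.homology (toRed N) i)) ∧
      ((A 0).Nonempty → ∀ (L : Type) [Group L] (a : FreeAction (bdU U) A L),
        Nonempty (FinRes L) ∧
        ((∃ (Y : FinRes L) (i : ℕ), Nontrivial (Y.homology (toRed L) i)) ∨
          (∃ k ≤ 2, HcNonzero (bdU U) A k) ∨ HcInfiniteCyclic (bdU U) A 3 ∨
          a.euler U.len ≠ 0 → ∃ i, Nontrivial (X.homology (toRed N) i)))) ∧
    (∀ (T : Type) [Nonempty T] (M : CoxeterMatrix T) (K : Type) [Group K]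
      (cs : CoxeterSystem M K) (B C : ∀ i, Set (U.E i)) (mir : ∀ i, U.E i → Set T)
      (κ : ∀ i, U.E i → K → U.E i) (n : ℕ),
      Inh (bdU U) B → HcOnly (bdU U) B n → Refl (bdU U) cs B C mir κ →
      (∀ e ∈ C n, mir n e = ∅) →
      ∃ m, m + Nat.card T = n ∧ HcOnly (bdU U) (fc C mir Set.univ) m ∧
        (m ≤ 3 → (fc C mir Set.univ 0).Nonempty → ∀ (L : Type) [Group L],
          Nonempty (FreeAction (bdU U) (fc C mir Set.univ) L) →
          ∃ i, Nontrivial (X.homology (toRed N) i))) := by
  have hl := lf_bdU U hU hfin
  refine ⟨fun A hA => ⟨main_spec U hU hfin X hA, fun h => main_spec U hU hfin X hA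
    ⟨0, zeroInSpec_of_folner h⟩, fun hne L _ a => main_group U hU hfin X hA hne a⟩, ?_⟩
  intro T _ M K _ cs B C mir κ n hB hn hR hW
  have hF : Inh (bdU U) (fc C mir (Set.univ : Set T)) := Inh.face cs hB hR Set.univ
  have hsB := inh_sub hB
  have hsF := inh_sub hF
  obtain ⟨m, hm, h1, h2⟩ := pd_fix hl hR
    ⟨(gen_iff hsB n).2 hn.1, fun j hj => (van_iff hsB j).2 (hn.2 j hj)⟩ hW
  have h3 : HcInfiniteCyclic (bdU U) (fc C mir (Set.univ : Set T)) m := (gen_iff hsF m).1 h1
  refine ⟨m, hm, ⟨h3, fun j hj => (van_iff hsF j).1 (h2 j hj)⟩, fun hm3 hne L _ ha => ?_⟩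
  obtain ⟨a⟩ := ha
  refine (main_group U hU hfin X hF hne a).2 ?_
  rcases Nat.lt_or_ge m 3 with h4 | h4
  · refine Or.inr (Or.inl ⟨m, by omega, ?_⟩)
    by_contra h5
    obtain ⟨z₀, hz, hz1⟩ := h1
    have h6 := (van_iff hsF m).2 h5 _ hz
    exact one_ne_zero (gen_torsion hz1 hz (n := 1) (by rwa [one_smul]))
  · have h5 : m = 3 := by omega
    rw [h5] at h3
    exact Or.inr (Or.inr (Or.inl h3))

end Pool.Agent.Results.MP_48737f_gt.FixedSetsOfReflectionGroups
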