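import Pool.Agent.V5helper85.ZD.Main

/-!
# Zero in the spectrum for reflection constructions, from the Euler characteristics of the strata

`(W, S)` is a Coxeter system, `S = {s_b | b ∈ B}`, and `H` is a group which permutes `B` and acts on
`W` accordingly (`φ h s_b = s_(h b)`).  `Y : Mirrored H B` (`Pool.Agent.Q169.ZD.Defs`) is a finite
dimensional CW complex with a free cellular action of `H` with finitely many orbits of cells and with
mirrors `Y_b`, `b ∈ B`, `h Y_b = Y_(h b)`; so `K = Y/H` is a finite complex with a mirror structure.
The group `W ⋊ H` acts on `𝒰(W, Y) = W × Y / ∼`.  `IsAcyclic cs Y` says that `𝒰(W, Y)` is acyclic (for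
instance contractible), in terms of its cellular chain complex.

Let `M` be a closed aspherical manifold (or a finite aspherical complex) whose universal cover is
`𝒰(W, Y)`, such that `N = π_1(M)` is a subgroup of finite index of `W ⋊ H`; by the hypothesis `hN` `N`
acts freely.  All manifolds obtained by Davis' reflection group trick from a compact aspherical
manifold (or complex) `K` with a mirror structure are of this kind.  `H = π_1(K)` is arbitrary.

`M` is homotopy equivalent to a finite complex, and the cellular chain complex of the universal cover
of that complex is a finite free resolution `X` of the trivial `ℤ[N]`-module `ℤ` (`FinRes`); its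
homology with coefficients in `C*_r(N)` (`X.homology (toRed N) i`,
`Pool.Agent.H919R4.ZS.Defs`) is that of `M`.

Idea of the proof: the complex of square summable cochains of `𝒰(W, Y)` is the member `q = 1` of a
family of complexes, the `q`-weighted square summable cochains of Davis, Dymara, Januszkiewicz and
Okun, on which the Hecke algebra of `W ⋊ H` with the parameter `q` acts.  Here they are realised in
one Hilbert space by projections which depend norm continuously on `q` (`Pool.Agent.Q169.ZD.Stm`).  If
zero is not in the spectrum for `q = 1`, then it is not in the spectrum for `q` near `1`, so the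
Euler characteristic for the trace of the Hecke von Neumann algebra is zero for `q` near `1`; it is
the weighted Euler characteristic `weightedChi`, an analytic function of `q`, so it vanishes for all
`q`.  Letting the weights of some classes of reflections tend to infinity and the others to zero gives
the Euler characteristics of the intersections of the unions of mirrors in these classes.
-/

set_option autoImplicit false

namespace Pool.Agent.Results.MP_48737f_gt.ReflectionEulerCharacteristics

open Pool.Agent.Q169.ZD (Mirrored IsAcyclic IsWeight par)
open Pool.Agent.H919R4.ZS (FinRes toRed)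
open Pool.Agent.V5helper85.ZD (weightedChi ClassClosed mirrorChi)

/-- Let `𝒰(W, Y)` be acyclic and let `N` be a subgroup of finite index of `W ⋊ H` which acts freely
on its cells.  Suppose that

* the weighted Euler characteristic `∑_e (-1)^(dim e) / W_(mir e)(p)` (over the cells `e` of `Y/H`) is
  not zero for some `H`-invariant weight function `p : W → (0, ∞)`; or
* for some `n ≥ 0` and some subsets `O_1, …, O_n` of `B` which correspond to unions of conjugacy classes
  of reflections of `W ⋊ H` (arbitrary `H`-invariant subsets if `W` is right-angled), the Euler
  characteristic of the intersection `K_(O_1) ∩ … ∩ K_(O_n)` is not zero, where `K = Y/H` and `K_O` is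
  the union of the mirrors with index in `O` (for `n = 0` this is the Euler characteristic of `K`).

Then for every finite free resolution `X` of `ℤ` over `ℤ[N]` the homology of `X` with coefficients in
the reduced group `C*`-algebra of `N` does not vanish in some degree `i` which is at most the length
of `X`. -/
theorem result (B : Type) (M : CoxeterMatrix B) (W : Type) [Group W] (cs : CoxeterSystem M W)
    (H : Type) [Group H] [MulAction H B] (φ : H →* MulAut W)
    (hφ : ∀ h b, φ h (cs.simple b) = cs.simple (h • b))
    (Y : Mirrored H B) (hY : IsAcyclic cs Y)
    (N : Subgroup (W ⋊[φ] H)) [N.FiniteIndex]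
    (hN : ∀ (i : ℕ) (e : Y.E i) (w u : W), u ∈ par cs (Y.mir i e) →
      (SemidirectProduct.inl (w * u * w⁻¹) : W ⋊[φ] H) ∈ N → u = 1)
    (hχ : (∃ p : W → ℝ, IsWeight cs p ∧ (∀ h w, p (φ h w) = p w) ∧ weightedChi cs Y p ≠ 0) ∨
      ∃ (n : ℕ) (O : Fin n → Set B), (∀ k, ClassClosed cs φ (O k)) ∧ mirrorChi Y O ≠ 0)
    (X : FinRes N) : ∃ i ≤ X.len, Nontrivial (X.homology (toRed N) i) :=
  Pool.Agent.V5helper85.ZD.main cs φ hφ Y hY N hN hχ X

end Pool.Agent.Results.MP_48737f_gt.ReflectionEulerCharacteristics
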