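import Pool.Agent.V5helper87.ZM.Rel2

/-!
Zero in the spectrum for mapping tori whose monodromy has subexponential growth, absolutely or
relative to a subcomplex.

A closed aspherical manifold `M` with fundamental group `G` is homotopy equivalent to a finite CW
complex, and the cellular chain complex of the universal cover of that complex is a finite free
resolution `X` of the trivial `ℤ[G]`-module `ℤ` (`Pool.Agent.H919R4.ZS.FinRes`).  Its homology with
coefficients in `C*_r(G)` is the homology of `M` with these coefficients. `NonzeroUpTo X N` says that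
`H_j(M; C*_r(G)) ≠ 0` for some `j ≤ N`.

Let `M` be the mapping torus of a homotopy equivalence `f : F → F` of a closed aspherical manifold
`F` (or a bundle over the circle with fibre `F`). Then `G = π_1(M)` has a homomorphism `π` onto `ℤ`
with kernel `C = π_1(F)`, and the conjugation with an element `t ∈ G` with `π(t) = 1` is the
automorphism of `C` induced by `f`. A cellular map homotopic to `f` gives a chain map `τ` of the
cellular chain complex `Y` of the universal cover of `F`, semilinear with respect to the conjugation
by `t`. The conjecture for `M` implies the one for `F`, and conversely, if the norms of the powers of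
`τ`, and of a similar chain map for the inverse of `f`, have subexponential growth, then the
conjecture for `F` implies the one for `M`; it also suffices that the Euler characteristic of `F` is
not zero. (The norm of a matrix entry in `C*_r(C)` is at most the sum of the absolute values of the
coefficients; so it suffices that the images of the cells of the universal cover under the iterates
consist of subexponentially many cells. This is true for a product of Dehn twists, for instance.)

Relative form: let `F₀` be a subcomplex of `F`, with `f(F₀) ⊆ F₀`, and `Z` the relative cellular chain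
complex of the universal cover of `F` and the preimage of `F₀`. It suffices that the map
`H_i(F; C*_r(C)) → H_i(F, F₀; C*_r(C))` is not zero and that the maps induced by the iterates of `f` on the
relative chains `Z` have subexponential growth; so the monodromy may be wild on a part of `F`.

The proof of (1). Suppose that `H_j(G; C*_r(G)) = 0` for `j ≤ i`. A contraction of the complex
`C*_r(G) ⊗ X` in degrees at most `i` may be approximated by one with entries in `ℂ[G]`, up to an error of
norm `< 1/2` with entries in `ℂ[G]`. By the Neumann series, the image under `F` of a cycle over `C*_r(C)`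
is the boundary of a series over `G` whose terms have exponentially decreasing norm and linearly
increasing support in the cosets of `C`. As `K` has subexponential growth, it may be applied to this
series, and shows that the image of the cycle under `K F` is a boundary over `C*_r(C)`. For (3) one
constructs a retraction `X → Y` which is compatible with the action of `t` far out in both directions.
-/

set_option autoImplicit false

namespace Pool.Agent.Results.MP_48737f_gt.SubexponentialMonodromy

open Pool.Agent.H919R4.ZS (FinRes toRed augm)
open Pool.Agent.TH38.ZT (euler)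
open Pool.Agent.V5helper87.ZM (Cx toCx NonzeroOn EMap SubexpLift NonzeroUpTo)

/-- Let `X` be a finite free resolution of `ℤ` over `ℤ[G]`.

(1) Let `C` be a subgroup of `G`, let `Y` and `Z` be complexes of free `ℤ[C]`-modules of finite rank,
`F : Y → X` and `K : X → Z` chain maps of `ℤ[C]`-complexes, and `K` of subexponential growth in the
degrees `i` and `i + 1`. If the map `K F` from `H_i(C*_r(C) ⊗ Y)` to `H_i(C*_r(C) ⊗ Z)` is not zero, then
`H_j(G; C*_r(G)) ≠ 0` for some `j ≤ i`.

(2) Let `C` be a subgroup of `G`, `Y` a finite free resolution of `ℤ` over `ℤ[C]`, and `K : X → Y` a chain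
map of `ℤ[C]`-complexes over the identity of `ℤ`, of subexponential growth in the degrees `i` and
`i + 1`. If `H_i(C; C*_r(C)) ≠ 0`, then `H_j(G; C*_r(G)) ≠ 0` for some `j ≤ i`.

(3) Let `C` be the kernel of a homomorphism `π : G → ℤ` with `π(t) = 1` and `Y` a finite free resolution of
`ℤ` over `ℤ[C]`. If `H_j(G; C*_r(G)) ≠ 0` for some `j ≤ N`, then `H_j(C; C*_r(C)) ≠ 0` for some `j ≤ N`.
Conversely, let `p : Y → Z` be a chain map to a complex of free `ℤ[C]`-modules of finite rank which is
not zero on `H_i(C*_r(C) ⊗ -)`, such that the conjugations by `t` and `t⁻¹` have lifts to `p` which are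
subexponential on `Z` in the degrees `i` and `i + 1`. Then `H_j(G; C*_r(G)) ≠ 0` for some `j ≤ i`. If there are
such lifts for the identity of `Y`, in all degrees, then the least `j` with `H_j(G; C*_r(G)) ≠ 0` and the
least `j` with `H_j(C; C*_r(C)) ≠ 0` are equal; if moreover the Euler characteristic of `Y` is not zero, then
they exist and are at most the length of `Y`. -/
theorem result (G : Type) [Group G] (X : FinRes G) :
    (∀ (C : Subgroup G) (Y Z : Cx C)
      (F : ∀ i, Matrix (Fin (Y.n i)) (Fin (X.n i)) (MonoidAlgebra ℤ G)) (K : EMap C X Z),
      (∀ i, (Y.d i).map (MonoidAlgebra.mapDomainRingHom ℤ C.subtype) * F i = F (i + 1) * X.d i) →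
      ∀ i, K.Subexponential {i, i + 1} → NonzeroOn Y Z i (K.comp (F i)) → NonzeroUpTo X i) ∧
    (∀ (C : Subgroup G) (Y : FinRes C) (K : EMap C X (toCx Y)),
      (∀ g a, ∑ j, augm C (K.K 0 g a j) * Y.aug j = X.aug a) →
      ∀ i, K.Subexponential {i, i + 1} → Nontrivial (Y.homology (toRed C) i) →
        NonzeroUpTo X i) ∧
    (∀ (π : G →* Multiplicative ℤ) (t : G), π t = Multiplicative.ofAdd 1 → ∀ Y : FinRes π.ker,
      (∀ N, NonzeroUpTo X N → NonzeroUpTo Y N) ∧
      (∀ (Z : Cx π.ker) (p : ∀ i, Matrix (Fin (Y.n i)) (Fin (Z.n i)) (MonoidAlgebra ℤ π.ker)),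
        (∀ i, Y.d i * p i = p (i + 1) * Z.d i) → ∀ i, SubexpLift Y Z p t {i, i + 1} →
        SubexpLift Y Z p t⁻¹ {i, i + 1} → NonzeroOn (toCx Y) Z i (p i) → NonzeroUpTo X i) ∧
      (SubexpLift Y (toCx Y) (fun _ => 1) t Set.univ →
        SubexpLift Y (toCx Y) (fun _ => 1) t⁻¹ Set.univ →
        (∀ N, NonzeroUpTo Y N ↔ NonzeroUpTo X N) ∧
        (euler Y ≠ 0 → NonzeroUpTo X Y.len ∧ NonzeroUpTo Y Y.len))) := by
  refine ⟨?_, ?_, ?_⟩
  · intro C Y Z F K hF i hK hn
    exact Pool.Agent.V5helper87.ZM.rel1 X Y Z K F hF i hK hn
  · intro C Y K hK i hs h
    exact Pool.Agent.V5helper87.ZM.retr X Y K hK i hs h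
  · intro π t ht Y
    refine ⟨fun N h => Pool.Agent.V5helper87.ZM.conv π t ht X Y N h, ?_, ?_⟩
    · intro Z p hp i h1 h2 hn
      exact Pool.Agent.V5helper87.ZM.rel2 π t ht X Y Z p hp i h1 h2 hn
    · intro h1 h2
      have h3 := Pool.Agent.V5helper87.ZM.absolute π t ht X Y h1 h2
      refine ⟨fun N => ⟨h3 N, Pool.Agent.V5helper87.ZM.conv π t ht X Y N⟩, fun h => ?_⟩
      have h4 : NonzeroUpTo Y Y.len := Pool.Agent.TH38.ZT.exists_of_euler Y h
      exact ⟨h3 _ h4, h4⟩

end Pool.Agent.Results.MP_48737f_gt.SubexponentialMonodromy
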